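import Pool.Agent.H883LP.Stmts

/-!
# The Farkas certificate read off from a row of the tableau
-/

set_option autoImplicit false

namespace Pool.Agent.H304R3.LP

open Pool.Agent.H558R2 Pool.Agent.H883LP Matrix

variable {m n : ℕ}

theorem dd_sum (A : Fin m → Fin n → ℝ) (b : Fin m → ℝ)
    (β : Fin m → Option (Fin (m + (n + n)))) (i : Fin m) (x : Option (Fin (m + (n + n)))) :
    dd (wmat A b) (Function.update β i x) =
      ∑ r, wmat A b r x * dd (wmat A b) (Function.update β i (some (slackBasis m n r))) := by
  rw [dd_update, LinearMap.pi_apply_eq_sum_univ (cramer _) (fun r => wmat A b r x)]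
  rw [Finset.sum_apply]
  refine Finset.sum_congr rfl fun r _ => ?_
  have hv : (fun j : Fin m => if r = j then (1 : ℝ) else 0) =
      fun r' => wmat A b r' (some (slackBasis m n r)) := by
    ext r'
    simp only [wmat, slackBasis, Equiv.symm_apply_apply, colEntry]
    by_cases h : r = r'
    · rw [if_pos h, if_pos h.symm]
    · rw [if_neg h, if_neg (Ne.symm h)]
  rw [dd_update, Pi.smul_apply, smul_eq_mul, hv]

theorem taskSolY : SolYStmt := by
  intro m n A b β i hG
  obtain ⟨hd, h1, h2⟩ := hG
  change dd (wmat A b) (fun j => some (β j)) ≠ 0 at hd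
  change dd (wmat A b) (Function.update (fun j => some (β j)) i none) *
        dd (wmat A b) (fun j => some (β j)) < 0 at h1
  change ∀ k, 0 ≤ dd (wmat A b) (Function.update (fun j => some (β j)) i (some k)) *
        dd (wmat A b) (fun j => some (β j)) at h2
  set d := dd (wmat A b) (fun j => some (β j)) with hdd
  set N : Fin m → ℝ := fun r =>
    dd (wmat A b) (Function.update (fun j => some (β j)) i (some (slackBasis m n r))) with hN
  have hY : (fun r => numY β i r (lpInput A b) / denF β (lpInput A b)) = fun r => N r / d := rfl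
  have hS : ∀ x, dd (wmat A b) (Function.update (fun j => some (β j)) i x) =
      ∑ r, wmat A b r x * N r := fun x => dd_sum A b _ i x
  rw [hY]
  have hdd0 : 0 < d * d := mul_self_pos.2 hd
  have hdiv : ∀ z : ℝ, z / d = z * d / (d * d) := by
    intro z
    field_simp
  refine ⟨?_, ?_, ?_⟩
  · intro r
    change 0 ≤ N r / d
    rw [hdiv]
    exact div_nonneg (h2 _) hdd0.le
  · ext c
    have e1 := h2 (colEquiv m n (Sum.inr (Sum.inr c)))
    have e2 := h2 (colEquiv m n (Sum.inr (Sum.inl c)))
    rw [hS] at e1 e2
    have e3 : ∀ r, wmat A b r (some (colEquiv m n (Sum.inr (Sum.inr c)))) = A r c := by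
      intro r
      simp [wmat, colEntry]
    have e4 : ∀ r, wmat A b r (some (colEquiv m n (Sum.inr (Sum.inl c)))) = - A r c := by
      intro r
      simp [wmat, colEntry]
    simp only [e3] at e1
    simp only [e4, neg_mul, Finset.sum_neg_distrib] at e2
    have e5 : (∑ r, A r c * N r) * d = 0 := by linarith
    have e6 : ∑ r, A r c * N r = 0 := (mul_eq_zero.1 e5).resolve_right hd
    rw [Pi.zero_apply]
    change ∑ r, N r / d * A r c = 0
    have e7 : ∑ r, N r / d * A r c = (∑ r, A r c * N r) / d := by
      rw [Finset.sum_div]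
      exact Finset.sum_congr rfl fun r _ => by ring
    rw [e7, e6, zero_div]
  · change 0 < ∑ r, N r / d * b r
    have e1 := hS none
    have e2 : ∑ r, N r / d * b r = - ((∑ r, wmat A b r none * N r) / d) := by
      rw [Finset.sum_div, ← Finset.sum_neg_distrib]
      refine Finset.sum_congr rfl fun r _ => ?_
      change N r / d * b r = - (- b r * N r / d)
      ring
    rw [e2, ← e1, hdiv, neg_pos]
    exact div_neg_of_neg_of_pos h1 hdd0

end Pool.Agent.H304R3.LP
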